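import Pool.Agent.T2h98.EA.All
import Pool.Agent.T2h98.EA.AllP
import Pool.Agent.T2h98.EA.Prp

/-!
# Almost sure absence of ballistic motion in the Anderson model, at every disorder

`H_σ = Δ + σ ξ` on `ℤ^d`, `(Δψ)(x) = ∑_{|y-x|=1} ψ(y)`, iid `ξ` with a bounded density (for instance
standard Gaussian `ξ`, the case of Q1), any `σ ≠ 0`, any `d`. With probability one, for every
initial state `f` with finite second moment, `∑_x |x|² |(exp(-i t H_σ) f)(x)|² = o(t²)`.
So whatever the spectrum of `H_σ` at small disorder is, the motion is never ballistic, in no state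
and at no energy, and the conductivity measure has no atom at zero frequency (no Drude peak). No
information on the spectral type is used. For pure point spectrum this is a theorem of Simon (1990);
for weak disorder and `d ≥ 3` only times up to a power of `1/|σ|` were known.

Proof. Let `v` be a component of the velocity and `v(t) = exp(i t H) v exp(-i t H)`. By
the mean ergodic theorem in the Hilbert space of the trace per volume, the averages
`M_T = (1/T) ∫_0^T v(t) dt` converge to a covariant bounded operator `A` which commutes with `H`.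
Resample the potential at the origin: `H' = H + s P_0`, `A' = A(H')`. On vectors `φ` orthogonal to
the cyclic space `C_0` of `δ_0` both evolutions agree. `M_T' - M_T` is compact, and `A - M_T` is small
in the norm of the trace per volume, which is invariant under the evolution; therefore
`(A' - A) exp(-i t H) φ → 0` in (Cesàro) mean for smooth `φ`, as `t → ±∞`. By Duhamel's formula it
follows that `∫ ⟨δ_0, exp(-i u H) A φ⟩ exp(i u H') δ_0 du = 0` for almost every resampled value, and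
spectral averaging over the value at the origin gives `⟨A δ_0, φ⟩ = 0`. So `A δ_0` is in `C_0`, and as
`A` commutes with `H`, `A δ_0` is a real vector. But `v δ_0` is imaginary, so
`E ‖A δ_0‖² = E ⟨v δ_0, A δ_0⟩ = 0`, and `A = 0` almost surely. Almost sure convergence of the averages
follows from a maximal inequality for covariant operators (Yeadon's noncommutative maximal ergodic
inequality, proved with approximate maximizers).

The library is in `Pool/Agent/T2h98/NB` and `Pool/Agent/T2h98/EA`.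
-/

set_option autoImplicit false

open scoped BigOperators Topology ENNReal
open MeasureTheory ProbabilityTheory Filter

namespace Pool.Agent.Results.MP_1906c1_mp.AbsenceOfBallisticMotion

/-- `(H_σ ψ)(x) = ∑_{|y-x|=1} ψ(y) + σ ξ(x) ψ(x)` -/
noncomputable def H {d : ℕ} (σ : ℝ) (ξ : (Fin d → ℤ) → ℝ) (ψ : (Fin d → ℤ) → ℂ)
    (x : Fin d → ℤ) : ℂ :=
  ∑ i : Fin d, (ψ (x + Pi.single i 1) + ψ (x - Pi.single i 1)) + ((σ * ξ x : ℝ) : ℂ) * ψ x

/-- the Hilbert space `ℓ²(ℤ^d)` -/
abbrev Hil (d : ℕ) : Type := lp (fun _ : Fin d → ℤ => ℂ) 2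

/-- a state as a function on `ℤ^d` -/
def fn {d : ℕ} (f : Hil d) : (Fin d → ℤ) → ℂ := fun x => f x

/-- `ψ_t = exp(-i t H_σ) ψ_0`: `i ∂_t ψ_t(x) = (H_σ ψ_t)(x)` for all `t` and `x`, and
`‖ψ_t‖ = ‖ψ_0‖` for all `t` -/
structure IsSolution {d : ℕ} (σ : ℝ) (ξ : (Fin d → ℤ) → ℝ) (ψ : ℝ → Hil d) : Prop where
  norm : ∀ t : ℝ, ‖ψ t‖ = ‖ψ 0‖
  deriv : ∀ (t : ℝ) (x : Fin d → ℤ),
    HasDerivAt (fun s => fn (ψ s) x) (-(Complex.I * H σ ξ (fn (ψ t)) x)) t

/-- the second moment `∑_x |x|² |p(x)|²` (possibly infinite) -/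
noncomputable def msd {d : ℕ} (p : Hil d) : ℝ≥0∞ :=
  ∑' x : Fin d → ℤ, ENNReal.ofReal ((∑ i, (x i : ℝ) ^ 2) * ‖fn p x‖ ^ 2)

/-- laws with a bounded density -/
def BoundedDensity (μ : Measure ℝ) : Prop :=
  ∃ C : ℝ, ∀ S : Set ℝ, MeasurableSet S → μ S ≤ ENNReal.ofReal C * volume S

section

open Pool.Agent.T2h98.NB Pool.Agent.T2h98.EA

theorem sol_of {d : ℕ} {U : Om d → ℝ → L2 d →L[ℂ] L2 d} (hU : Gr0 U) (σ : ℝ)
    (ξ : (Fin d → ℤ) → ℝ) (f : Hil d) :
    IsSolution σ ξ (fun t => U (fun x => σ * ξ x) t f) := by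
  have h := prp_of hU (fun x => σ * ξ x)
  exact ⟨fun t => by rw [h.norm, h.norm], fun t x => h.deriv t f x⟩

theorem sol_eq {d : ℕ} {U : Om d → ℝ → L2 d →L[ℂ] L2 d} (hU : Gr0 U) {σ : ℝ}
    {ξ : (Fin d → ℤ) → ℝ} {ψ : ℝ → Hil d} (h : IsSolution σ ξ ψ) :
    ψ = fun t => U (fun x => σ * ξ x) t (ψ 0) := by
  have h2 := sol_of hU σ ξ (ψ 0)
  have h3 := uni (v := fun x => σ * ξ x) (ψ := fun t x => (ψ t) x)
    (χ := fun t x => (U (fun x => σ * ξ x) t (ψ 0)) x) ‖ψ 0‖
    (fun t x => h.deriv t x) (fun t x => h2.deriv t x) (by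
      funext x
      simp only [hU.zero]
      rfl)
    (fun t x => (coord_le _ x).trans (h.norm t).le)
    (fun t x => (coord_le _ x).trans (hU.norm _ t _).le)
  funext t
  ext x
  exact congrFun (congrFun h3 t) x

/-- the law of `σ v`, `v` with law `μ` -/
theorem bd_scale {μ : Measure ℝ} (hμ : BoundedDensity μ) {σ : ℝ} (hσ : σ ≠ 0) :
    ∃ K : ℝ, BD (μ.map fun v => σ * v) K := by
  obtain ⟨C, hC⟩ := hμ
  have hs : 0 < |σ| := abs_pos.2 hσ
  refine ⟨(|C| + 1) / |σ|, by positivity, fun S hS => ?_⟩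
  have hm : Measurable fun v : ℝ => σ * v := measurable_const_mul σ
  rw [Measure.map_apply hm hS]
  refine (hC _ (hm hS)).trans ?_
  have h1 : volume ((fun v : ℝ => σ * v) ⁻¹' S) = ENNReal.ofReal |σ⁻¹| * volume S :=
    Real.volume_preimage_mul_left hσ S
  rw [h1, ← mul_assoc, ← ENNReal.ofReal_mul' (abs_nonneg _)]
  gcongr
  rw [abs_inv, div_eq_mul_inv]
  gcongr
  exact (le_abs_self C).trans (by linarith)

theorem gauss_bd : BoundedDensity (gaussianReal 0 1) := by
  refine ⟨1, fun S hS => ?_⟩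
  rw [gaussianReal_of_var_ne_zero 0 one_ne_zero, withDensity_apply _ hS, ENNReal.ofReal_one,
    one_mul]
  calc ∫⁻ x in S, gaussianPDF 0 1 x ≤ ∫⁻ _x in S, 1 := by
        refine lintegral_mono fun x => ?_
        unfold gaussianPDF gaussianPDFReal
        rw [← ENNReal.ofReal_one]
        apply ENNReal.ofReal_le_ofReal
        have h1 : (1 : ℝ) ≤ Real.sqrt (2 * Real.pi * ((1 : NNReal) : ℝ)) := by
          rw [← Real.sqrt_one]
          apply Real.sqrt_le_sqrt
          rw [NNReal.coe_one, mul_one]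
          nlinarith [Real.pi_gt_three]
        have h2 : (Real.sqrt (2 * Real.pi * ((1 : NNReal) : ℝ)))⁻¹ ≤ 1 := inv_le_one_of_one_le₀ h1
        have h3 : Real.exp (-(x - 0) ^ 2 / (2 * ((1 : NNReal) : ℝ))) ≤ 1 := by
          rw [Real.exp_le_one_iff]
          have : 0 ≤ (x - 0) ^ 2 := sq_nonneg _
          rw [NNReal.coe_one]
          linarith
        calc _ ≤ (1 : ℝ) * 1 := mul_le_mul h2 h3 (Real.exp_pos _).le zero_le_one
          _ = 1 := one_mul _
    _ = volume S := by rw [lintegral_const, one_mul, Measure.restrict_apply_univ]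

end

open Pool.Agent.T2h98.NB Pool.Agent.T2h98.EA in
/-- **Almost sure absence of ballistic motion.** Let `d` be arbitrary, let `μ` be a law on the line
with a bounded density (such as the standard Gaussian law, first statement) and `σ ≠ 0`. For every
potential `ξ` and every initial state in `ℓ²(ℤ^d)` there is exactly one solution
`ψ_t = exp(-i t H_σ) ψ_0`. For iid `ξ(x)` with the law `μ`, with probability one, for every initial
state `ψ_0` with finite second moment, the second moment of `ψ_t` divided by `t²` tends to `0` as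
`t → ∞`. -/
theorem result (d : ℕ) :
    BoundedDensity (gaussianReal 0 1) ∧
    ∀ (μ : Measure ℝ) [IsProbabilityMeasure μ], BoundedDensity μ → ∀ σ : ℝ, σ ≠ 0 →
    (∀ (ξ : (Fin d → ℤ) → ℝ) (f : Hil d), ∃! ψ : ℝ → Hil d, IsSolution σ ξ ψ ∧ ψ 0 = f) ∧
    ∀ᵐ ξ ∂(Measure.infinitePi fun _ : Fin d → ℤ => μ),
      ∀ ψ : ℝ → Hil d, IsSolution σ ξ ψ → msd (ψ 0) ≠ ⊤ →
        Tendsto (fun t : ℝ => msd (ψ t) / ENNReal.ofReal (t ^ 2)) atTop (𝓝 0) := by
  refine ⟨gauss_bd, fun μ _ hμ σ hσ => ?_⟩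
  obtain ⟨U, hU⟩ := Pool.Agent.T2h98.NB.All.grpA d
  refine ⟨fun ξ f => ⟨_, ⟨sol_of hU.g0 σ ξ f, by rw [hU.g0.zero]; rfl⟩, fun ψ hψ => ?_⟩, ?_⟩
  · have h1 := sol_eq hU.g0 hψ.1
    rw [hψ.2] at h1
    exact h1
  obtain ⟨K, hK⟩ := bd_scale hμ hσ
  have hm : Measurable fun v : ℝ => σ * v := measurable_const_mul σ
  have : IsProbabilityMeasure (μ.map fun v => σ * v) :=
    Measure.isProbabilityMeasure_map hm.aemeasurable
  have hmm : Measurable fun (ξ : (Fin d → ℤ) → ℝ) (y : Fin d → ℤ) => σ * ξ y := by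
    rw [measurable_pi_iff]
    exact fun y => hm.comp (measurable_pi_apply y)
  have hmp : MeasurePreserving (fun (ξ : (Fin d → ℤ) → ℝ) (y : Fin d → ℤ) => σ * ξ y)
      (Measure.infinitePi fun _ : Fin d → ℤ => μ)
      (Pool.Agent.TH980.IM.PR.PP (Sd d) (μ.map fun v => σ * v)) := by
    refine ⟨hmm, ?_⟩
    unfold Pool.Agent.TH980.IM.PR.PP
    exact Measure.infinitePi_map_pi _ fun _ => hm
  have h1 := Pool.Agent.T2h98.EA.All.nbasA d U hU (μ.map fun v => σ * v) K hK
  filter_upwards [hmp.quasiMeasurePreserving.ae h1] with ξ hξ ψ hψ hf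
  have h2 := hξ (ψ 0) hf
  refine h2.congr fun t => ?_
  conv_rhs => rw [sol_eq hU.g0 hψ]
  rfl

end Pool.Agent.Results.MP_1906c1_mp.AbsenceOfBallisticMotion
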