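import Pool.Agent.T2h98.EA.Fin
import Pool.Agent.T2h98.EA.AllP
import Pool.Agent.T2h98.EA.Prp

/-!
# Quantum ergodicity on the absolutely continuous spectrum of the Anderson model, at every disorder

`H_σ = Δ + σ ξ` on `ℤ^d`, `(Δψ)(x) = ∑_{|y-x|=1} ψ(y)`, iid `ξ` with a bounded density (for instance
standard Gaussian `ξ`, the case of Q1), any `σ ≠ 0`, any `d ≥ 1`. Let `O` be a bounded observable
which is covariant under translations (a local density, a current, any bounded function of the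
potential and of finitely many hopping operators, and even any conserved quantity). With
probability one, the time average `(1/T) ∫_0^T ⟨ψ_t, O ψ_t⟩ dt`, `ψ_t = exp(-i t H_σ) f`, converges
for every state `f`. There is a bounded Borel function `ρ_O` on the line, not depending on the
disorder, such that with probability one the limit is `∫ ρ_O dm` for every state `f` with absolutely
continuous spectral measure `m`:
the time average depends on the energy distribution of the state only, and is given by a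
microcanonical average. In particular there are no covariant conserved quantities on the absolutely
continuous subspace besides the functions of the energy. So if the continuous spectrum sought in
(2b) is absolutely continuous, then the extended states are ergodic in this sense. Nothing like this
holds for localized states, where the average depends on the place and on the eigenvectors.

Proof. Let `A` be the limit of the time averages of `O` (mean ergodic theorem for the trace per
volume; almost sure convergence by a maximal inequality for covariant operators). Resampling the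
potential at one site and spectral averaging give `A δ_x ∈ C_x`, the cyclic space of `δ_x`, for all
`x` (first for local `O`, then by approximation for all). Hence for almost every energy `E`,
`A δ_x` is a multiple `a_x(E)` of `δ_x` in the fibre of the absolutely continuous spectrum, whose form
is `Im G(x, y; E + i 0)`. Boundary values of Green functions at neighbouring sites do not vanish, and
by resampling neither do their imaginary parts where `Im G(x, x; E + i0) > 0`; as `A` is
self-adjoint, `a_x(E) = a_y(E)` for neighbours, so for all sites. By the zero-one law the value does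
not depend on the disorder.

The library is in `Pool/Agent/T2h98/NB` and `Pool/Agent/T2h98/EA`.
-/

set_option autoImplicit false

open scoped BigOperators Topology ENNReal
open MeasureTheory ProbabilityTheory Filter

namespace Pool.Agent.Results.MP_1906c1_mp.ErgodicityOfExtendedStates

/-- `(H_σ ψ)(x) = ∑_{|y-x|=1} ψ(y) + σ ξ(x) ψ(x)` -/
noncomputable def H {d : ℕ} (σ : ℝ) (ξ : (Fin d → ℤ) → ℝ) (ψ : (Fin d → ℤ) → ℂ)
    (x : Fin d → ℤ) : ℂ :=
  ∑ i : Fin d, (ψ (x + Pi.single i 1) + ψ (x - Pi.single i 1)) + ((σ * ξ x : ℝ) : ℂ) * ψ x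

/-- the Hilbert space `ℓ²(ℤ^d)` -/
abbrev Hil (d : ℕ) : Type := lp (fun _ : Fin d → ℤ => ℂ) 2

/-- a state as a function on `ℤ^d` -/
def fn {d : ℕ} (f : Hil d) : (Fin d → ℤ) → ℂ := fun x => f x

/-- `ψ_t = exp(-i t H_σ) ψ_0`: `i ∂_t ψ_t(x) = (H_σ ψ_t)(x)` for all `t` and `x`, and
`‖ψ_t‖ = ‖ψ_0‖` for all `t` -/
structure IsSolution {d : ℕ} (σ : ℝ) (ξ : (Fin d → ℤ) → ℝ) (ψ : ℝ → Hil d) : Prop where
  norm : ∀ t : ℝ, ‖ψ t‖ = ‖ψ 0‖
  deriv : ∀ (t : ℝ) (x : Fin d → ℤ),
    HasDerivAt (fun s => fn (ψ s) x) (-(Complex.I * H σ ξ (fn (ψ t)) x)) t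

/-- bounded operators on `ℓ²(ℤ^d)` -/
abbrev Op (d : ℕ) : Type := Hil d →L[ℂ] Hil d

/-- `B f` -/
noncomputable def act {d : ℕ} (B : Op d) (f : Hil d) : Hil d := B f

/-- the inner product `⟨f, g⟩` -/
noncomputable def ip {d : ℕ} (f g : Hil d) : ℂ := inner ℂ f g

/-- the expectation `⟨f, B f⟩` (real if `B` is self-adjoint) -/
noncomputable def expectation {d : ℕ} (B : Op d) (f : Hil d) : ℝ := (ip f (act B f)).re

/-- observables: self-adjoint operators `O ξ` on `ℓ²(ℤ^d)`, bounded by `c`, measurable in the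
potential `ξ`, and covariant: translating the potential and the state translates `O ξ f` -/
structure IsObservable {d : ℕ} (O : ((Fin d → ℤ) → ℝ) → Op d) (c : ℝ) : Prop where
  meas : ∀ f : Hil d, StronglyMeasurable fun ξ => act (O ξ) f
  bound : ∀ (ξ : (Fin d → ℤ) → ℝ) (f : Hil d), ‖act (O ξ) f‖ ≤ c * ‖f‖
  symm : ∀ (ξ : (Fin d → ℤ) → ℝ) (f g : Hil d), ip (act (O ξ) f) g = ip f (act (O ξ) g)
  cov : ∀ (z : Fin d → ℤ) (ξ : (Fin d → ℤ) → ℝ) (f g : Hil d), (∀ x, fn g x = fn f (x + z)) →
    ∀ x, fn (act (O fun y => ξ (y + z)) g) x = fn (act (O ξ) f) (x + z)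

/-- `m` is the spectral measure of `ψ_0` for the solution `ψ_t = exp(-i t H_σ) ψ_0`: a finite measure
with `⟨ψ_0, ψ_t⟩ = ∫ exp(-i t E) dm(E)` for all `t` -/
def IsSpectralMeasure {d : ℕ} (ψ : ℝ → Hil d) (m : Measure ℝ) : Prop :=
  IsFiniteMeasure m ∧ ∀ t : ℝ, ip (ψ 0) (ψ t) = ∫ E : ℝ, Complex.exp (-(Complex.I * t * E)) ∂m

/-- laws with a bounded density -/
def BoundedDensity (μ : Measure ℝ) : Prop :=
  ∃ C : ℝ, ∀ S : Set ℝ, MeasurableSet S → μ S ≤ ENNReal.ofReal C * volume S

section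

open Pool.Agent.T2h98.NB Pool.Agent.T2h98.EA

theorem sol_of {d : ℕ} {U : Om d → ℝ → L2 d →L[ℂ] L2 d} (hU : Gr0 U) (σ : ℝ)
    (ξ : (Fin d → ℤ) → ℝ) (f : Hil d) :
    IsSolution σ ξ (fun t => U (fun x => σ * ξ x) t f) := by
  have h := prp_of hU (fun x => σ * ξ x)
  exact ⟨fun t => by rw [h.norm, h.norm], fun t x => h.deriv t f x⟩

theorem sol_eq {d : ℕ} {U : Om d → ℝ → L2 d →L[ℂ] L2 d} (hU : Gr0 U) {σ : ℝ}
    {ξ : (Fin d → ℤ) → ℝ} {ψ : ℝ → Hil d} (h : IsSolution σ ξ ψ) :
    ψ = fun t => U (fun x => σ * ξ x) t (ψ 0) := by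
  have h2 := sol_of hU σ ξ (ψ 0)
  have h3 := uni (v := fun x => σ * ξ x) (ψ := fun t x => (ψ t) x)
    (χ := fun t x => (U (fun x => σ * ξ x) t (ψ 0)) x) ‖ψ 0‖
    (fun t x => h.deriv t x) (fun t x => h2.deriv t x) (by
      funext x
      simp only [hU.zero]
      rfl)
    (fun t x => (coord_le _ x).trans (h.norm t).le)
    (fun t x => (coord_le _ x).trans (hU.norm _ t _).le)
  funext t
  ext x
  exact congrFun (congrFun h3 t) x

/-- observables as functions of `V = σ ξ` -/
theorem obg_of {d : ℕ} (σ : ℝ) {O : ((Fin d → ℤ) → ℝ) → Op d} {c : ℝ} (hc : 0 ≤ c)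
    (hO : IsObservable O c) : Obg (fun V : Om d => O fun y => σ⁻¹ * V y) c := by
  have hm : Measurable fun (V : Om d) (y : Fin d → ℤ) => σ⁻¹ * V y := by
    rw [measurable_pi_iff]
    exact fun y => (measurable_const_mul σ⁻¹).comp (measurable_pi_apply y)
  have hb : ∀ ξ, ‖O ξ‖ ≤ c := fun ξ => ContinuousLinearMap.opNorm_le_bound _ hc (hO.bound ξ)
  refine ⟨⟨fun f => (hO.meas f).comp_measurable hm, ⟨c, fun V => hb _⟩, fun z V f => ?_⟩,
    fun V => hb _, fun V f g => hO.symm _ f g⟩
  ext x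
  have h1 := hO.cov z (fun y => σ⁻¹ * V y) (Sf z f) f (fun x => by
    show f x = (Sf z f) (x + z)
    rw [Sf_apply, add_sub_cancel_right]) x
  rw [Sf_apply, sub_neg_eq_add]
  exact h1

/-- the bound of an observable is not negative -/
theorem bound_nonneg {d : ℕ} {O : ((Fin d → ℤ) → ℝ) → Op d} {c : ℝ} (hO : IsObservable O c) :
    0 ≤ c := by
  have h1 := hO.bound 0 (ee 0)
  rw [norm_ee, mul_one] at h1
  exact (norm_nonneg _).trans h1

/-- the law of `σ v`, `v` with law `μ` -/
theorem bd_scale {μ : Measure ℝ} (hμ : BoundedDensity μ) {σ : ℝ} (hσ : σ ≠ 0) :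
    ∃ K : ℝ, BD (μ.map fun v => σ * v) K := by
  obtain ⟨C, hC⟩ := hμ
  have hs : 0 < |σ| := abs_pos.2 hσ
  refine ⟨(|C| + 1) / |σ|, by positivity, fun S hS => ?_⟩
  have hm : Measurable fun v : ℝ => σ * v := measurable_const_mul σ
  rw [Measure.map_apply hm hS]
  refine (hC _ (hm hS)).trans ?_
  have h1 : volume ((fun v : ℝ => σ * v) ⁻¹' S) = ENNReal.ofReal |σ⁻¹| * volume S :=
    Real.volume_preimage_mul_left hσ S
  rw [h1, ← mul_assoc, ← ENNReal.ofReal_mul' (abs_nonneg _)]
  gcongr
  rw [abs_inv, div_eq_mul_inv]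
  gcongr
  exact (le_abs_self C).trans (by linarith)

theorem gauss_bd : BoundedDensity (gaussianReal 0 1) := by
  refine ⟨1, fun S hS => ?_⟩
  rw [gaussianReal_of_var_ne_zero 0 one_ne_zero, withDensity_apply _ hS, ENNReal.ofReal_one,
    one_mul]
  calc ∫⁻ x in S, gaussianPDF 0 1 x ≤ ∫⁻ _x in S, 1 := by
        refine lintegral_mono fun x => ?_
        unfold gaussianPDF gaussianPDFReal
        rw [← ENNReal.ofReal_one]
        apply ENNReal.ofReal_le_ofReal
        have h1 : (1 : ℝ) ≤ Real.sqrt (2 * Real.pi * ((1 : NNReal) : ℝ)) := by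
          rw [← Real.sqrt_one]
          apply Real.sqrt_le_sqrt
          rw [NNReal.coe_one, mul_one]
          nlinarith [Real.pi_gt_three]
        have h2 : (Real.sqrt (2 * Real.pi * ((1 : NNReal) : ℝ)))⁻¹ ≤ 1 := inv_le_one_of_one_le₀ h1
        have h3 : Real.exp (-(x - 0) ^ 2 / (2 * ((1 : NNReal) : ℝ))) ≤ 1 := by
          rw [Real.exp_le_one_iff]
          have : 0 ≤ (x - 0) ^ 2 := sq_nonneg _
          rw [NNReal.coe_one]
          linarith
        calc _ ≤ (1 : ℝ) * 1 := mul_le_mul h2 h3 (Real.exp_pos _).le zero_le_one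
          _ = 1 := one_mul _
    _ = volume S := by rw [lintegral_const, one_mul, Measure.restrict_apply_univ]

end

open Pool.Agent.T2h98.NB Pool.Agent.T2h98.EA in
/-- **Ergodicity of the extended states.** Let `d ≥ 1`, let `μ` be a law on the line with a bounded
density (such as the standard Gaussian law, first statement) and `σ ≠ 0`. For every potential and
every initial state there is exactly one solution `ψ_t = exp(-i t H_σ) ψ_0`, and it has exactly one
spectral measure. For every bounded covariant observable `O` there is a bounded Borel function `ρ`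
such that for iid `ξ(x)` with the law `μ`, with probability one, for every solution `ψ` the time
average of the expectation of `O` in the state `ψ_t` converges, and the limit is `∫ ρ dm` if the
spectral measure `m` of `ψ` is absolutely continuous. -/
theorem result (d : ℕ) (hd : 1 ≤ d) :
    BoundedDensity (gaussianReal 0 1) ∧
    ∀ (μ : Measure ℝ) [IsProbabilityMeasure μ], BoundedDensity μ → ∀ σ : ℝ, σ ≠ 0 →
    (∀ (ξ : (Fin d → ℤ) → ℝ) (f : Hil d), ∃! ψ : ℝ → Hil d, IsSolution σ ξ ψ ∧ ψ 0 = f) ∧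
    (∀ (ξ : (Fin d → ℤ) → ℝ) (ψ : ℝ → Hil d), IsSolution σ ξ ψ →
      ∃! m : Measure ℝ, IsSpectralMeasure ψ m) ∧
    ∀ (O : ((Fin d → ℤ) → ℝ) → Op d) (c : ℝ), IsObservable O c →
      ∃ ρ : ℝ → ℝ, Measurable ρ ∧ (∀ E, |ρ E| ≤ c) ∧
        ∀ᵐ ξ ∂(Measure.infinitePi fun _ : Fin d → ℤ => μ),
          ∀ ψ : ℝ → Hil d, IsSolution σ ξ ψ → ∃ l : ℝ,
            Tendsto (fun T : ℝ => T⁻¹ * ∫ t in (0 : ℝ)..T, expectation (O ξ) (ψ t)) atTop (𝓝 l) ∧
            ∀ m : Measure ℝ, IsSpectralMeasure ψ m → m ≪ volume → l = ∫ E, ρ E ∂m := by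
  refine ⟨gauss_bd, fun μ _ hμ σ hσ => ?_⟩
  obtain ⟨U, hU⟩ := Pool.Agent.T2h98.NB.All.grpA d
  refine ⟨fun ξ f => ⟨_, ⟨sol_of hU.g0 σ ξ f, by rw [hU.g0.zero]; rfl⟩, fun ψ hψ => ?_⟩,
    fun ξ ψ hψ => ?_, ?_⟩
  · have h1 := sol_eq hU.g0 hψ.1
    rw [hψ.2] at h1
    exact h1
  · have h1 := spe_unique hU (fun x => σ * ξ x) (ψ 0)
    have h2 : ∀ m : Measure ℝ, IsSpectralMeasure ψ m ↔
        IsFiniteMeasure m ∧ Spe U (fun x => σ * ξ x) (ψ 0) m := by
      intro m
      have h3 : ∀ t : ℝ, ψ t = U (fun x => σ * ξ x) t (ψ 0) := fun t =>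
        congrFun (sol_eq hU.g0 hψ) t
      unfold IsSpectralMeasure Spe ip
      simp only [← h3]
    simpa only [h2] using h1
  intro O c hO
  obtain ⟨K, hK⟩ := bd_scale hμ hσ
  have hm : Measurable fun v : ℝ => σ * v := measurable_const_mul σ
  have : IsProbabilityMeasure (μ.map fun v => σ * v) :=
    Measure.isProbabilityMeasure_map hm.aemeasurable
  have hmm : Measurable fun (ξ : (Fin d → ℤ) → ℝ) (y : Fin d → ℤ) => σ * ξ y := by
    rw [measurable_pi_iff]
    exact fun y => hm.comp (measurable_pi_apply y)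
  have hmp : MeasurePreserving (fun (ξ : (Fin d → ℤ) → ℝ) (y : Fin d → ℤ) => σ * ξ y)
      (Measure.infinitePi fun _ : Fin d → ℤ => μ)
      (Pool.Agent.TH980.IM.PR.PP (Sd d) (μ.map fun v => σ * v)) := by
    refine ⟨hmm, ?_⟩
    unfold Pool.Agent.TH980.IM.PR.PP
    exact Measure.infinitePi_map_pi _ fun _ => hm
  obtain ⟨ρ, h1, h2, h3⟩ := ea_main Pool.Agent.T2h98.EA.All.petA d hd U hU
    (μ.map fun v => σ * v) K hK _ c (obg_of σ (bound_nonneg hO) hO)
  refine ⟨ρ, h1, h2, ?_⟩
  filter_upwards [hmp.quasiMeasurePreserving.ae h3] with ξ hξ ψ hψ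
  have hψU : ∀ t : ℝ, ψ t = U (fun x => σ * ξ x) t (ψ 0) := fun t =>
    congrFun (sol_eq hU.g0 hψ) t
  obtain ⟨l, h4, h6⟩ := hξ (ψ 0)
  have h5 : (fun y : Fin d → ℤ => σ⁻¹ * (σ * ξ y)) = ξ := by
    funext y
    rw [← mul_assoc, inv_mul_cancel₀ hσ, one_mul]
  rw [h5] at h4
  simp only [← hψU] at h4
  refine ⟨l, h4, fun m hm hac => h6 m hm.1 (fun t => ?_) hac⟩
  rw [← hψU]
  exact hm.2 t

end Pool.Agent.Results.MP_1906c1_mp.ErgodicityOfExtendedStates
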