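import Pool.Agent.T2h98.MR.AllV
import Pool.Agent.T2h98.EA.Fin
import Pool.Agent.T2h98.EA.Prp
import Pool.Agent.T2h98.EA.Uni

/-!
# Gaussian disorder: relaxation of the momentum in infinite volume, at all times

`H = Δ + σ ξ` on `ℤ^d`, `d ≥ 3`, iid standard Gaussian `ξ`, and `ψ_t = exp(-i t H) φ`. The mean free
time is of order `σ^{-2}`. Let `η > 0` and let `S` be a finite set of sites. There is a constant `K`
such that for small `σ`, with probability at least `1 - η`, the following holds for all initial states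
`φ` supported in `S` with `‖φ‖ ≤ 1`, for all window lengths `W ≥ K/σ²` and for ALL `T > 0` at once,
without an upper bound: for most `t ∈ [0, T]` the mean of the momentum distribution of `ψ_s` over the
window `s ∈ [t, t + W]` is close to the relaxed one; more exactly the mean over `t ∈ [0, T]` of the
square of the distance is at most `η`. (For `T → 0` this is a bound of the time average over `[0, W]`,
for all `W ≥ K/σ²`.) The relaxed momentum distribution is the mixture, with the weights `|φ^(k)|²`, of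
the microcanonical distributions (the uniform distributions on the level sets of the energy
`2 ∑_i cos p_i`) at the energies of the momenta `p = 2 π k`: the law of the energy is the one of `φ`,
and the momentum is completely randomized on the energy shells. The statement is for finitely many
characters `exp(i m·p)` at once; by linearity and density it holds for all continuous functions of
the momentum `p`.
At `σ = 0` the momentum distribution is conserved, and it does not change much before times of order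
`σ^{-2}`, so that the time scale `K/σ²` is the right one. Whatever the spectrum of `H` is, the
momentum relaxes at the kinetic time scale and is relaxed, in the mean over windows of this length,
at most later times, forever.

The library is in `Pool/Agent/T2h98/MR`, `PS` and `EA`. On a torus of side `L ≥ |σ|^{-3}` the time
average of the shift over times `M ≥ K/σ²` is close to a function of the energy in the
Hilbert-Schmidt norm per volume (from the mean field equation for the product of two resolvents with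
symbols, at `ε = σ²/K`); a trigonometric polynomial in the energy (`qE`) takes the place of this
function. Comparison of the torus with the lattice, at times `M ≤ K/σ² + 1` only, gives the same on the
lattice, in mean over the disorder. The errors `R` are covariant operators with small
`E ‖R δ_0‖²`, and the maximal inequality for averages of covariant operators (Yeadon's
inequality), applied to `R^* R`, bounds the averages of `‖R ψ_k‖²` over `k < n` for all `n` at once.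
-/

set_option autoImplicit false

open scoped BigOperators Topology ENNReal
open MeasureTheory ProbabilityTheory Filter

namespace Pool.Agent.Results.MP_1906c1_mp.MomentumRelaxation

/-- `(H_σ ψ)(x) = ∑_{|y-x|=1} ψ(y) + σ ξ(x) ψ(x)` -/
noncomputable def H {d : ℕ} (σ : ℝ) (ξ : (Fin d → ℤ) → ℝ) (ψ : (Fin d → ℤ) → ℂ)
    (x : Fin d → ℤ) : ℂ :=
  ∑ i : Fin d, (ψ (x + Pi.single i 1) + ψ (x - Pi.single i 1)) + ((σ * ξ x : ℝ) : ℂ) * ψ x

/-- the Hilbert space `ℓ²(ℤ^d)` -/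
abbrev Hil (d : ℕ) : Type := lp (fun _ : Fin d → ℤ => ℂ) 2

/-- a state as a function on `ℤ^d` -/
def fn {d : ℕ} (f : Hil d) : (Fin d → ℤ) → ℂ := fun x => f x

/-- `ψ_t = exp(-i t H_σ) ψ_0`: `i ∂_t ψ_t(x) = (H_σ ψ_t)(x)` for all `t` and `x`, and
`‖ψ_t‖ = ‖ψ_0‖` for all `t` -/
structure IsSolution {d : ℕ} (σ : ℝ) (ξ : (Fin d → ℤ) → ℝ) (ψ : ℝ → Hil d) : Prop where
  norm : ∀ t : ℝ, ‖ψ t‖ = ‖ψ 0‖
  deriv : ∀ (t : ℝ) (x : Fin d → ℤ),
    HasDerivAt (fun s => fn (ψ s) x) (-(Complex.I * H σ ξ (fn (ψ t)) x)) t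

/-- `∑_x conj(ψ(x)) ψ(x + m)`, the mean of `exp(i m·p)` in the state `ψ`, `p` the momentum -/
noncomputable def momentumMean {d : ℕ} (m : Fin d → ℤ) (ψ : Hil d) : ℂ :=
  ∑' x, (starRingEnd ℂ) (fn ψ x) * fn ψ (x + m)

/-- the Fourier transform at the momentum `p = 2 π k` of a state with finite support -/
noncomputable def fourier {d : ℕ} (φ : Hil d) (k : Fin d → ℝ) : ℂ :=
  ∑' x : Fin d → ℤ, fn φ x * Complex.exp (-((2 * Real.pi * ∑ i, k i * (x i : ℝ) : ℝ) * Complex.I))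

/-- the energy of the momentum `p = 2 π k` -/
noncomputable def energy {d : ℕ} (k : Fin d → ℝ) : ℝ := ∑ i, 2 * Real.cos (2 * Real.pi * k i)

/-- the Lorentz function `Γ / ((e - E)² + Γ²)` of the energy `e` of the momentum `2 π k` -/
noncomputable def lorentz (d : ℕ) (E Γ : ℝ) (k : Fin d → ℝ) : ℝ :=
  Γ / ((energy k - E) ^ 2 + Γ ^ 2)

/-- the mean of `exp (i m · p)` over the momenta `p = 2 π k`, with the weight `lorentz` -/
noncomputable def shellMean (d : ℕ) (m : Fin d → ℤ) (E Γ : ℝ) : ℂ :=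
  (∫ k in Set.Icc (0 : Fin d → ℝ) 1, Complex.exp ((2 * Real.pi * ∑ i, (m i : ℝ) * k i : ℝ) *
    Complex.I) * ((lorentz d E Γ k : ℝ) : ℂ)) /
      ∫ k in Set.Icc (0 : Fin d → ℝ) 1, ((lorentz d E Γ k : ℝ) : ℂ)

/-- the microcanonical mean of `exp (i m · p)` at energy `E`: the limit of `shellMean` for
`Γ → 0+` -/
noncomputable def micro (d : ℕ) (m : Fin d → ℤ) (E : ℝ) : ℂ :=
  limUnder (𝓝[>] (0 : ℝ)) (shellMean d m E)

/-- the mean of `exp (i m·p)` over the time window `[t, t + W]` -/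
noncomputable def windowMean {d : ℕ} (W : ℝ) (m : Fin d → ℤ) (ψ : ℝ → Hil d) (t : ℝ) : ℂ :=
  (W : ℂ)⁻¹ * ∫ s in t..(t + W), momentumMean m (ψ s)

/-- the relaxed mean of `exp (i m·p)` for the initial state `φ`: the mixture of the microcanonical
means with the weights `|φ^(k)|²` -/
noncomputable def relaxedMean {d : ℕ} (m : Fin d → ℤ) (φ : Hil d) : ℂ :=
  ∫ k in Set.Icc (0 : Fin d → ℝ) 1, ((‖fourier φ k‖ ^ 2 : ℝ) : ℂ) * micro d m (energy k)

section

open Pool.Agent.T2h98.NB Pool.Agent.T2h98.EA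

theorem sol_of {d : ℕ} {U : Om d → ℝ → L2 d →L[ℂ] L2 d} (hU : Gr0 U) (σ : ℝ)
    (ξ : (Fin d → ℤ) → ℝ) (f : Hil d) :
    IsSolution σ ξ (fun t => U (fun x => σ * ξ x) t f) := by
  have h := prp_of hU (fun x => σ * ξ x)
  exact ⟨fun t => by rw [h.norm, h.norm], fun t x => h.deriv t f x⟩

theorem sol_eq {d : ℕ} {U : Om d → ℝ → L2 d →L[ℂ] L2 d} (hU : Gr0 U) {σ : ℝ}
    {ξ : (Fin d → ℤ) → ℝ} {ψ : ℝ → Hil d} (h : IsSolution σ ξ ψ) :
    ψ = fun t => U (fun x => σ * ξ x) t (ψ 0) := by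
  have h2 := sol_of hU σ ξ (ψ 0)
  have h3 := uni (v := fun x => σ * ξ x) (ψ := fun t x => (ψ t) x)
    (χ := fun t x => (U (fun x => σ * ξ x) t (ψ 0)) x) ‖ψ 0‖
    (fun t x => h.deriv t x) (fun t x => h2.deriv t x) (by
      funext x
      simp only [hU.zero]
      rfl)
    (fun t x => (coord_le _ x).trans (h.norm t).le)
    (fun t x => (coord_le _ x).trans (hU.norm _ t _).le)
  funext t
  ext x
  exact congrFun (congrFun h3 t) x

/-- the mean of the shift as an inner product -/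
theorem momentumMean_eq {d : ℕ} (m : Fin d → ℤ) (ψ : Hil d) :
    momentumMean m ψ = (inner ℂ ψ (Sf (-m) ψ) : ℂ) := by
  unfold momentumMean
  rw [lp.inner_eq_tsum]
  refine tsum_congr fun x => ?_
  rw [Sf_apply, sub_neg_eq_add]
  simp only [RCLike.inner_apply]
  rw [mul_comm]
  rfl

/-- a state with finite support -/
theorem vf_eq {d : ℕ} (φ : Hil d) (S : Finset (Fin d → ℤ)) (hφ : ∀ x, x ∉ S → fn φ x = 0) :
    φ = Pool.Agent.T2h98.MR.vf S (fn φ) := by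
  unfold Pool.Agent.T2h98.MR.vf
  ext x
  have h1 : ∀ s : Finset (Fin d → ℤ), (∑ y ∈ s, fn φ y • (ee y : L2 d)) x =
      ∑ y ∈ s, fn φ y * (if x = y then 1 else 0) := by
    intro s
    classical
    induction s using Finset.induction_on with
    | empty => simp
    | insert a s ha ih =>
      rw [Finset.sum_insert ha, Finset.sum_insert ha, lp.coeFn_add, Pi.add_apply, ih]
      congr 1
      rw [lp.coeFn_smul, Pi.smul_apply, smul_eq_mul]
      congr 1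
      unfold ee
      rw [lp.single_apply]
      by_cases h : x = a
      · subst h; simp
      · simp [h]
  rw [h1]
  by_cases hx : x ∈ S
  · rw [Finset.sum_eq_single x]
    · rw [if_pos rfl, mul_one]; rfl
    · intro y _ hy
      rw [if_neg (Ne.symm hy), mul_zero]
    · intro h; exact absurd hx h
  · have h4 : ∑ y ∈ S, fn φ y * (if x = y then (1 : ℂ) else 0) = 0 := by
      refine Finset.sum_eq_zero fun y hy => ?_
      rw [if_neg (fun h => hx (by rw [h]; exact hy)), mul_zero]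
    rw [h4]
    exact hφ x hx

theorem fourier_eq {d : ℕ} (φ : Hil d) (S : Finset (Fin d → ℤ)) (hφ : ∀ x, x ∉ S → fn φ x = 0)
    (k : Fin d → ℝ) : fourier φ k = Pool.Agent.T2h98.MR.fh S (fn φ) k := by
  unfold fourier Pool.Agent.T2h98.MR.fh
  refine tsum_eq_sum fun x hx => ?_
  rw [hφ x hx, zero_mul]

open Pool.Agent.T2h98.QD Pool.Agent.T2h98.PS in
theorem micro_eq (hL : T_PLM) (d : ℕ) (hd : 3 ≤ d) (m : Fin d → ℤ) (E : ℝ) (hE : 0 < dn d E) :
    Tendsto (shellMean d m E) (𝓝[>] 0) (𝓝 (micro d m E)) ∧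
    micro d m E = ((wm d m E / dn d E : ℝ) : ℂ) := by
  have h1 : Tendsto (shellMean d m E) (𝓝[>] 0) (𝓝 ((wm d m E / dn d E : ℝ) : ℂ)) :=
    hL d hd m E hE
  have h2 : micro d m E = ((wm d m E / dn d E : ℝ) : ℂ) := h1.limUnder_eq
  exact ⟨by rw [h2]; exact h1, h2⟩

/-- the law of `σ v` does not depend on the sign of `σ` -/
theorem ns_abs (σ : ℝ) : Pool.Agent.T2h98.MR.ns |σ| = Pool.Agent.T2h98.MR.ns σ := by
  unfold Pool.Agent.T2h98.MR.ns
  rw [gaussianReal_map_const_mul, gaussianReal_map_const_mul]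
  simp only [mul_zero, sq_abs]

/-- almost all momenta have energies inside the spectrum -/
theorem ae_energy (d : ℕ) (hd : 1 ≤ d) : ∀ᵐ k ∂(volume.restrict (Set.Icc (0 : Fin d → ℝ) 1)),
    |energy k| < 2 * (d : ℝ) := by
  refine ae_restrict_of_ae ?_
  have h0 : volume (⋃ n : ℤ, {k : Fin d → ℝ | k ⟨0, hd⟩ = (n : ℝ) / 2}) = 0 := by
    rw [measure_iUnion_null_iff]
    intro n
    exact Measure.pi_hyperplane (fun _ : Fin d => (volume : Measure ℝ)) ⟨0, hd⟩ ((n : ℝ) / 2)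
  rw [ae_iff]
  refine measure_mono_null (fun k hk => ?_) h0
  rw [Set.mem_ofPred_eq, not_lt] at hk
  rw [Set.mem_iUnion]
  have h1 : ∀ i, |Real.cos (2 * Real.pi * k i)| ≤ 1 := fun i => Real.abs_cos_le_one _
  have h2 : |energy k| ≤ 2 * |Real.cos (2 * Real.pi * k ⟨0, hd⟩)| + 2 * ((d : ℝ) - 1) := by
    unfold energy
    rw [← Finset.add_sum_erase _ _ (Finset.mem_univ (⟨0, hd⟩ : Fin d))]
    refine (abs_add_le _ _).trans (add_le_add (by rw [abs_mul, abs_two]) ?_)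
    refine (Finset.abs_sum_le_sum_abs _ _).trans ?_
    calc ∑ i ∈ Finset.univ.erase (⟨0, hd⟩ : Fin d), |2 * Real.cos (2 * Real.pi * k i)|
        ≤ ∑ _i ∈ Finset.univ.erase (⟨0, hd⟩ : Fin d), (2 : ℝ) := by
          refine Finset.sum_le_sum fun i _ => ?_
          rw [abs_mul, abs_two]
          linarith [h1 i]
      _ = 2 * ((d : ℝ) - 1) := by
          rw [Finset.sum_const, Finset.card_erase_of_mem (Finset.mem_univ _), Finset.card_univ,
            Fintype.card_fin, nsmul_eq_mul, Nat.cast_sub hd]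
          push_cast
          ring
  have h3 : |Real.cos (2 * Real.pi * k ⟨0, hd⟩)| = 1 := le_antisymm (h1 _) (by linarith)
  have h4 : Real.sin (2 * Real.pi * k ⟨0, hd⟩) = 0 := by
    have h5 := Real.sin_sq_add_cos_sq (2 * Real.pi * k ⟨0, hd⟩)
    rw [← sq_abs (Real.cos _), h3] at h5
    nlinarith
  obtain ⟨n, hn⟩ := Real.sin_eq_zero_iff.1 h4
  refine ⟨n, ?_⟩
  show k ⟨0, hd⟩ = (n : ℝ) / 2
  have := Real.pi_ne_zero
  field_simp
  have h6 : (n : ℝ) * Real.pi = 2 * k ⟨0, hd⟩ * Real.pi := by rw [hn]; ring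
  have h7 := mul_right_cancel₀ this h6
  linarith

end

/-- the relaxed value -/
theorem relaxed_eq (hL : Pool.Agent.T2h98.PS.T_PLM)
    (hpp : ∀ d : ℕ, 3 ≤ d → ∀ E : ℝ, |E| < 2 * (d : ℝ) → 0 < Pool.Agent.T2h98.QD.dn d E)
    {d : ℕ} (hd : 3 ≤ d) (m : Fin d → ℤ) (S : Finset (Fin d → ℤ)) (φ : Hil d)
    (hφ : ∀ x, x ∉ S → fn φ x = 0) :
    ((∫ k in Set.Icc (0 : Fin d → ℝ) 1, ‖Pool.Agent.T2h98.MR.fh S (fn φ) k‖ ^ 2 *
      (Pool.Agent.T2h98.PS.wm d m (Pool.Agent.T2h98.MR.ek k) /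
        Pool.Agent.T2h98.QD.dn d (Pool.Agent.T2h98.MR.ek k)) : ℝ) : ℂ) = relaxedMean m φ := by
  unfold relaxedMean
  rw [← integral_complex_ofReal]
  refine integral_congr_ae ?_
  filter_upwards [ae_energy d (by omega)] with k hk
  have h1 := (micro_eq hL d hd m (energy k) (hpp d hd _ hk)).2
  rw [h1, fourier_eq φ S hφ k]
  push_cast
  rfl

open Pool.Agent.T2h98.NB Pool.Agent.T2h98.QD Pool.Agent.T2h98.PS Pool.Agent.T2h98.MR in
theorem main (hMR : T_MRV) (hL : T_PLM)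
    (hpp : ∀ d : ℕ, 3 ≤ d → ∀ E : ℝ, |E| < 2 * (d : ℝ) → 0 < dn d E)
    {d : ℕ} (hd : 3 ≤ d) {U : Om d → ℝ → L2 d →L[ℂ] L2 d} (hU : Grp U) (m : Fin d → ℤ)
    (S : Finset (Fin d → ℤ)) (η : ℝ) (hη : 0 < η) :
    ∃ K σ₀ : ℝ, 0 < K ∧ 0 < σ₀ ∧ ∀ σ : ℝ, 0 < |σ| → |σ| ≤ σ₀ →
      ∃ Ω : Set ((Fin d → ℤ) → ℝ), MeasurableSet Ω ∧
        1 - η ≤ (Measure.infinitePi fun _ : Fin d → ℤ => gaussianReal 0 1).real Ω ∧
        ∀ ξ ∈ Ω, ∀ ψ : ℝ → Hil d, IsSolution σ ξ ψ → ‖ψ 0‖ ≤ 1 → (∀ x, x ∉ S → fn (ψ 0) x = 0) →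
          ∀ W T : ℝ, K / σ ^ 2 ≤ W → 0 < T →
          T⁻¹ * ∫ t in (0 : ℝ)..T, ‖windowMean W m ψ t - relaxedMean m (ψ 0)‖ ^ 2 ≤ η := by
  obtain ⟨K, hK, h⟩ := hMR d hd U hU m S η hη
  obtain ⟨σ₁, h0, h1⟩ := (mem_nhdsGT_iff_exists_Ioc_subset).1 h
  have h0' : (0 : ℝ) < σ₁ := h0
  refine ⟨K, σ₁, hK, h0', fun σ hσ hσ0 => ?_⟩
  obtain ⟨Ω, k1, k2, k3⟩ := h1 (⟨hσ, hσ0⟩ : |σ| ∈ Set.Ioc 0 σ₁)
  have hm : Measurable fun v : ℝ => σ * v := measurable_const_mul σ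
  have hmm : Measurable fun (ξ : (Fin d → ℤ) → ℝ) (y : Fin d → ℤ) => σ * ξ y := by
    rw [measurable_pi_iff]
    exact fun y => hm.comp (measurable_pi_apply y)
  have hlaw : (Measure.infinitePi fun _ : Fin d → ℤ => gaussianReal 0 1).map
      (fun (ξ : (Fin d → ℤ) → ℝ) (y : Fin d → ℤ) => σ * ξ y) =
      Pool.Agent.TH980.IM.PR.PP (Sd d) (ns σ) := by
    unfold Pool.Agent.TH980.IM.PR.PP ns
    exact Measure.infinitePi_map_pi _ fun _ => hm
  refine ⟨(fun (ξ : (Fin d → ℤ) → ℝ) (y : Fin d → ℤ) => σ * ξ y) ⁻¹' Ω, hmm k1, ?_,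
    fun ξ hξ ψ hψ hψ1 hψS W T hW hT => ?_⟩
  · rw [ns_abs, ← hlaw, map_measureReal_apply hmm k1] at k2
    exact k2
  · have hf1 : ∀ y, ‖fn (ψ 0) y‖ ≤ 1 := fun y => (Pool.Agent.T2h98.EA.coord_le (ψ 0) y).trans hψ1
    have h2 := k3 _ hξ (fn (ψ 0)) hf1 W (by rw [sq_abs]; exact hW) T hT
    rw [← vf_eq (ψ 0) S hψS, relaxed_eq hL hpp hd m S (ψ 0) hψS] at h2
    have h3 : ∀ t : ℝ, U (fun y => σ * ξ y) t (ψ 0) = ψ t := fun t =>
      (congrFun (sol_eq hU.g0 hψ) t).symm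
    simp only [h3, ← momentumMean_eq, Complex.ofReal_inv] at h2
    unfold windowMean
    exact h2

/-- finitely many characters at once -/
theorem main_fin (hMR : Pool.Agent.T2h98.MR.T_MRV) (hL : Pool.Agent.T2h98.PS.T_PLM)
    (hpp : ∀ d : ℕ, 3 ≤ d → ∀ E : ℝ, |E| < 2 * (d : ℝ) → 0 < Pool.Agent.T2h98.QD.dn d E)
    {d : ℕ} (hd : 3 ≤ d) {U : Pool.Agent.T2h98.NB.Om d → ℝ →
      Pool.Agent.T2h98.NB.L2 d →L[ℂ] Pool.Agent.T2h98.NB.L2 d} (hU : Pool.Agent.T2h98.NB.Grp U)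
    (M S : Finset (Fin d → ℤ)) (η : ℝ) (hη : 0 < η) :
    ∃ K σ₀ : ℝ, 0 < K ∧ 0 < σ₀ ∧ ∀ σ : ℝ, 0 < |σ| → |σ| ≤ σ₀ →
      ∃ Ω : Set ((Fin d → ℤ) → ℝ), MeasurableSet Ω ∧
        1 - η ≤ (Measure.infinitePi fun _ : Fin d → ℤ => gaussianReal 0 1).real Ω ∧
        ∀ ξ ∈ Ω, ∀ ψ : ℝ → Hil d, IsSolution σ ξ ψ → ‖ψ 0‖ ≤ 1 → (∀ x, x ∉ S → fn (ψ 0) x = 0) →
          ∀ m ∈ M, ∀ W T : ℝ, K / σ ^ 2 ≤ W → 0 < T →
          T⁻¹ * ∫ t in (0 : ℝ)..T, ‖windowMean W m ψ t - relaxedMean m (ψ 0)‖ ^ 2 ≤ η := by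
  obtain ⟨η', hη'⟩ : ∃ η' : ℝ, η' = η / ((M.card : ℝ) + 1) := ⟨_, rfl⟩
  have hη0 : 0 < η' := by rw [hη']; positivity
  have hη1 : η' ≤ η := by
    rw [hη']
    refine div_le_self hη.le ?_
    have : (0 : ℝ) ≤ M.card := Nat.cast_nonneg _
    linarith
  have hη2 : (M.card : ℝ) * η' ≤ η := by
    rw [hη', mul_div_assoc', div_le_iff₀ (by positivity)]
    nlinarith
  choose K σ₀ hK hσ₀ h using fun m => main hMR hL hpp hd hU m S η' hη0
  have hK1 : ∀ m ∈ M, K m ≤ 1 + ∑ m ∈ M, K m := by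
    intro m hm
    have := Finset.single_le_sum (f := K) (fun i _ => (hK i).le) hm
    linarith
  have hs1 : ∀ m ∈ M, (1 + ∑ m ∈ M, (σ₀ m)⁻¹)⁻¹ ≤ σ₀ m := by
    intro m hm
    have h1 := Finset.single_le_sum (f := fun m => (σ₀ m)⁻¹) (fun i _ => (inv_pos.2 (hσ₀ i)).le) hm
    rw [inv_le_comm₀ (by
      have := Finset.sum_nonneg (s := M) (f := fun m => (σ₀ m)⁻¹)
        fun i _ => (inv_pos.2 (hσ₀ i)).le
      linarith) (hσ₀ m)]
    linarith
  refine ⟨1 + ∑ m ∈ M, K m, (1 + ∑ m ∈ M, (σ₀ m)⁻¹)⁻¹, ?_, ?_, fun σ hσ hσ1 => ?_⟩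
  · have := Finset.sum_nonneg (s := M) (f := K) fun i _ => (hK i).le
    linarith
  · refine inv_pos.2 ?_
    have := Finset.sum_nonneg (s := M) (f := fun m => (σ₀ m)⁻¹)
      fun i _ => (inv_pos.2 (hσ₀ i)).le
    linarith
  have h2 : ∀ m : {m // m ∈ M}, ∃ Ω : Set ((Fin d → ℤ) → ℝ), MeasurableSet Ω ∧
        1 - η' ≤ (Measure.infinitePi fun _ : Fin d → ℤ => gaussianReal 0 1).real Ω ∧
        ∀ ξ ∈ Ω, ∀ ψ : ℝ → Hil d, IsSolution σ ξ ψ → ‖ψ 0‖ ≤ 1 → (∀ x, x ∉ S → fn (ψ 0) x = 0) →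
          ∀ W T : ℝ, K m.1 / σ ^ 2 ≤ W → 0 < T →
          T⁻¹ * ∫ t in (0 : ℝ)..T, ‖windowMean W m.1 ψ t - relaxedMean m.1 (ψ 0)‖ ^ 2 ≤ η' :=
    fun m => h m.1 σ hσ (hσ1.trans (hs1 m.1 m.2))
  choose Ω hΩ hP hb using h2
  refine ⟨⋂ m, Ω m, MeasurableSet.iInter hΩ, ?_, fun ξ hξ ψ hψ hψ1 hψS m hm W T hW hT => ?_⟩
  · have hsum : (Measure.infinitePi fun _ : Fin d → ℤ => gaussianReal 0 1).real (⋂ m, Ω m)ᶜ ≤
        ∑ m : {m // m ∈ M},
          (Measure.infinitePi fun _ : Fin d → ℤ => gaussianReal 0 1).real (Ω m)ᶜ := by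
      rw [Set.compl_iInter]
      exact measureReal_iUnion_fintype_le _
    have hsum2 : ∑ m : {m // m ∈ M},
        (Measure.infinitePi fun _ : Fin d → ℤ => gaussianReal 0 1).real (Ω m)ᶜ ≤
        M.card * η' := by
      have h3 : ∀ m ∈ (Finset.univ : Finset {m // m ∈ M}),
          (Measure.infinitePi fun _ : Fin d → ℤ => gaussianReal 0 1).real (Ω m)ᶜ ≤ η' := by
        intro m _
        rw [probReal_compl_eq_one_sub (hΩ m)]
        linarith [hP m]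
      refine (Finset.sum_le_sum h3).trans (le_of_eq ?_)
      rw [Finset.sum_const, Finset.card_univ, Fintype.card_coe, nsmul_eq_mul]
    rw [probReal_compl_eq_one_sub (MeasurableSet.iInter hΩ)] at hsum
    linarith
  · refine (hb ⟨m, hm⟩ ξ (Set.mem_iInter.1 hξ ⟨m, hm⟩) ψ hψ hψ1 hψS W T (le_trans ?_ hW)
      hT).trans hη1
    exact div_le_div_of_nonneg_right (hK1 m hm) (sq_nonneg σ)

/-- **Theorem.** Let `d ≥ 3`. (1) The limit `micro d m E` exists for `m ∈ ℤ^d` and `|E| < 2 d`.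
(2) For all `σ`, `ξ` and `f ∈ ℓ²(ℤ^d)` there is exactly one solution `ψ_t = exp(-i t H_σ) f`.
(3) Let `S` be a finite set of sites, `M` a finite subset of `ℤ^d` and `η > 0`. There are `K, σ₀ > 0`
such that for `0 < |σ| ≤ σ₀` the following holds with probability at least `1 - η`: for all solutions
`ψ` with `ψ_0` supported in `S` and `‖ψ_0‖ ≤ 1`, for all `m ∈ M`, all `W ≥ K / σ²` and all `T > 0`,
`T⁻¹ ∫_0^T |W⁻¹ ∫_t^{t+W} (∑_x conj(ψ_s(x)) ψ_s(x+m)) ds - relaxedMean m ψ_0|² dt ≤ η`. -/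
theorem result (d : ℕ) (hd : 3 ≤ d) :
    (∀ (m : Fin d → ℤ) (E : ℝ), |E| < 2 * (d : ℝ) →
      Tendsto (shellMean d m E) (𝓝[>] 0) (𝓝 (micro d m E))) ∧
    (∀ (σ : ℝ) (ξ : (Fin d → ℤ) → ℝ) (f : Hil d), ∃! ψ : ℝ → Hil d, IsSolution σ ξ ψ ∧ ψ 0 = f) ∧
    ∀ (M S : Finset (Fin d → ℤ)) (η : ℝ), 0 < η →
      ∃ K σ₀ : ℝ, 0 < K ∧ 0 < σ₀ ∧ ∀ σ : ℝ, 0 < |σ| → |σ| ≤ σ₀ →
        ∃ Ω : Set ((Fin d → ℤ) → ℝ), MeasurableSet Ω ∧
          1 - η ≤ (Measure.infinitePi fun _ : Fin d → ℤ => gaussianReal 0 1).real Ω ∧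
          ∀ ξ ∈ Ω, ∀ ψ : ℝ → Hil d, IsSolution σ ξ ψ → ‖ψ 0‖ ≤ 1 →
            (∀ x, x ∉ S → fn (ψ 0) x = 0) → ∀ m ∈ M, ∀ W T : ℝ, K / σ ^ 2 ≤ W → 0 < T →
            T⁻¹ * ∫ t in (0 : ℝ)..T, ‖windowMean W m ψ t - relaxedMean m (ψ 0)‖ ^ 2 ≤ η := by
  have hD := Pool.Agent.T2h98.QD.U.dosF
  have hL := Pool.Agent.T2h98.PS.All.plmA
  obtain ⟨U, hU⟩ := Pool.Agent.T2h98.NB.All.grpA d
  refine ⟨fun m E hE => (micro_eq hL d hd m E (Pool.Agent.T2h98.PS.pps hD d hd E hE)).1,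
    fun σ ξ f => ?_, fun M S η hη => ?_⟩
  · refine ⟨_, ⟨sol_of hU.g0 σ ξ f, by rw [hU.g0.zero]; rfl⟩, fun ψ hψ => ?_⟩
    have h1 := sol_eq hU.g0 hψ.1
    rw [hψ.2] at h1
    exact h1
  · exact main_fin Pool.Agent.T2h98.MR.All.mrvA hL (Pool.Agent.T2h98.PS.pps hD) hd hU M S η hη

end Pool.Agent.Results.MP_1906c1_mp.MomentumRelaxation
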