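import Pool.Agent.T2h98.PS.All

/-!
# Gaussian disorder: quantum ergodicity in phase space, in boxes much larger than the mean free path

`H = Δ + σ V` on the torus `(ℤ/L)^d`, `d ≥ 3`, iid standard Gaussian `V`. Let `0 < a`, `b < 1/5` if
`d = 3` and `b < 2/5` if `d ≥ 4`. As `σ → 0`, uniformly for `|σ|^{-2-a} ≤ L ≤ |σ|^{-2-b}`, with high
probability the eigenvectors of `H` are equidistributed in phase space: for every continuous function
`f` on the unit torus, every shift `m ∈ ℤ^d` and every orthonormal basis `u_j` of eigenvectors with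
eigenvalues `E_j`, `∑_x f(x/L) conj(u_j(x)) u_j(x+m)` is close to
`(microcanonical mean of exp(i m·p) at energy E_j) × ∫ f` for all but a small fraction of the `j`.
By linearity the same holds for all symbols `∑_m f_m(x) exp(i m·p)`: the phase space density of almost
all eigenvectors is the uniform (Liouville) measure on the energy shell. For `m = 0` this is the
equidistribution in the position. The mean free path is of order `σ^{-2}`, so the size of the torus is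
larger than the mean free path by a power. Nothing like this holds at `σ = 0`, where each plane wave
is an eigenvector.

The library is in `Pool/Agent/T2h98/PS`, `KU` and `QD`. The product of two resolvents with symbols
`p`, `q` between them satisfies a mean field equation (Schwinger-Dyson equation, Poincaré inequality,
`psd`, `pmain`), and the Ward identity gives its leading part `(∫ p Im G)(∫ q Im G)/(ε ∫ Im G)` at
`ε = σ^{2+h}` (`prel`). The integral over the energy is the Hilbert-Schmidt norm per volume of the time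
average of the shift over times `1/ε`, so this time average is close to a function of the energy
(`pde`, `pto`). For `h < a` the time average and `f` almost commute (`pco`). The position part
is `qeF`.
-/

set_option autoImplicit false

open scoped BigOperators Topology
open MeasureTheory ProbabilityTheory Filter

namespace Pool.Agent.Results.MP_1906c1_mp.PhaseSpaceErgodicity

/-- the Hamiltonian on the torus `(ℤ/L)^d` -/
noncomputable def HL {d L : ℕ} (σ : ℝ) (V : (Fin d → ZMod L) → ℝ) (u : (Fin d → ZMod L) → ℂ)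
    (x : Fin d → ZMod L) : ℂ :=
  ∑ i : Fin d, (u (x + Pi.single i 1) + u (x - Pi.single i 1)) + ((σ * V x : ℝ) : ℂ) * u x

/-- `u` is an orthonormal basis of eigenvectors (indexed by the points of the torus), `E` are the
eigenvalues -/
def IsEigenbasis {d L : ℕ} [NeZero L] (σ : ℝ) (V : (Fin d → ZMod L) → ℝ)
    (u : (Fin d → ZMod L) → (Fin d → ZMod L) → ℂ) (E : (Fin d → ZMod L) → ℝ) : Prop :=
  (∀ j x, HL σ V (u j) x = (E j : ℂ) * u j x) ∧
  ∀ j k, ∑ x, (starRingEnd ℂ) (u j x) * u k x = if j = k then 1 else 0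

/-- the point `x / L` of the unit torus `(ℝ/ℤ)^d` -/
noncomputable def point {d L : ℕ} (x : Fin d → ZMod L) : Fin d → UnitAddCircle :=
  fun i => ((((x i).val : ℝ) / L : ℝ) : UnitAddCircle)

/-- the mean `∫ f` of `f` over the unit torus -/
noncomputable def mean {d : ℕ} (f : (Fin d → UnitAddCircle) → ℂ) : ℂ :=
  ∫ x in Set.Icc (0 : Fin d → ℝ) 1, f fun i => (x i : UnitAddCircle)

/-- the matrix element `⟨u, f S_m u⟩ = ∑_x f(x) conj(u(x)) u(x + m)`, `S_m` the shift by `m` -/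
noncomputable def element {d L : ℕ} [NeZero L] (f : (Fin d → ZMod L) → ℂ) (m : Fin d → ℤ)
    (u : (Fin d → ZMod L) → ℂ) : ℂ :=
  ∑ x, f x * ((starRingEnd ℂ) (u x) * u (x + fun i => ((m i : ℤ) : ZMod L)))

/-- the Lorentz function `Γ / ((e - E)² + Γ²)` of the energy `e = 2 ∑ cos (2 π k_i)` of the momentum
`2 π k` -/
noncomputable def lorentz (d : ℕ) (E Γ : ℝ) (k : Fin d → ℝ) : ℝ :=
  Γ / ((∑ i, 2 * Real.cos (2 * Real.pi * k i) - E) ^ 2 + Γ ^ 2)

/-- the mean of `exp (i m · p)` over the momenta `p = 2 π k`, with the weight `lorentz` -/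
noncomputable def shellMean (d : ℕ) (m : Fin d → ℤ) (E Γ : ℝ) : ℂ :=
  (∫ k in Set.Icc (0 : Fin d → ℝ) 1, Complex.exp ((2 * Real.pi * ∑ i, (m i : ℝ) * k i : ℝ) *
    Complex.I) * ((lorentz d E Γ k : ℝ) : ℂ)) /
      ∫ k in Set.Icc (0 : Fin d → ℝ) 1, ((lorentz d E Γ k : ℝ) : ℂ)

/-- the microcanonical mean of `exp (i m · p)` at energy `E`: the limit of `shellMean` for
`Γ → 0+` -/
noncomputable def micro (d : ℕ) (m : Fin d → ℤ) (E : ℝ) : ℂ :=
  limUnder (𝓝[>] (0 : ℝ)) (shellMean d m E)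

open Pool.Agent.T2h98.QD Pool.Agent.T2h98.PS Pool.Agent.W788.MFP.Four in
theorem eb {d L : ℕ} [NeZero L] {σ : ℝ} {V : (Fin d → ZMod L) → ℝ}
    {u : (Fin d → ZMod L) → (Fin d → ZMod L) → ℂ} {E : (Fin d → ZMod L) → ℝ}
    (hu : IsEigenbasis σ V u E) : EB σ V u E := by
  refine ⟨fun j => ?_, hu.2⟩
  funext x
  rw [Pool.Agent.T2h98.QD.Cmp.HT_mulVec, Pi.smul_apply, smul_eq_mul]
  exact hu.1 j x

open Pool.Agent.T2h98.QD Pool.Agent.T2h98.PS in
theorem micro_eq (hL : T_PLM) (d : ℕ) (hd : 3 ≤ d) (m : Fin d → ℤ) (E : ℝ) (hE : 0 < dn d E) :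
    Tendsto (shellMean d m E) (𝓝[>] 0) (𝓝 (micro d m E)) ∧
    micro d m E = ((wm d m E / dn d E : ℝ) : ℂ) := by
  have h1 : Tendsto (shellMean d m E) (𝓝[>] 0) (𝓝 ((wm d m E / dn d E : ℝ) : ℂ)) :=
    hL d hd m E hE
  have h2 : micro d m E = ((wm d m E / dn d E : ℝ) : ℂ) := h1.limUnder_eq
  exact ⟨by rw [h2]; exact h1, h2⟩

/-- reduction to positive `σ` -/
theorem neg_reduce {d : ℕ} {P : (L : ℕ) → [NeZero L] → ℝ → ((Fin d → ZMod L) → ℝ) → Prop}
    (hneg : ∀ (L : ℕ) [NeZero L] (σ : ℝ) (V : (Fin d → ZMod L) → ℝ), P L (-σ) (fun x => -V x) →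
      P L σ V)
    {Q : ℝ → ℕ → Prop} {η : ℝ}
    (h : ∀ᶠ σ : ℝ in 𝓝[>] 0, ∀ (L : ℕ) [NeZero L], Q σ L →
      ∃ Ω : Set ((Fin d → ZMod L) → ℝ), MeasurableSet Ω ∧
        1 - η ≤ (Measure.pi fun _ : Fin d → ZMod L => gaussianReal 0 1).real Ω ∧
        ∀ V ∈ Ω, P L σ V) :
    ∃ σ₀ : ℝ, 0 < σ₀ ∧ ∀ σ : ℝ, 0 < |σ| → |σ| ≤ σ₀ → ∀ (L : ℕ) [NeZero L], Q |σ| L →
      ∃ Ω : Set ((Fin d → ZMod L) → ℝ), MeasurableSet Ω ∧
        1 - η ≤ (Measure.pi fun _ : Fin d → ZMod L => gaussianReal 0 1).real Ω ∧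
        ∀ V ∈ Ω, P L σ V := by
  obtain ⟨σ₁, h0, h1⟩ := (mem_nhdsGT_iff_exists_Ioc_subset).1 h
  have h0' : (0 : ℝ) < σ₁ := h0
  refine ⟨σ₁, h0', fun σ hσ hσ0 L _ hQ => ?_⟩
  rcases lt_or_gt_of_ne (abs_pos.1 hσ) with hs | hs
  · rw [abs_of_neg hs] at hσ hσ0 hQ
    obtain ⟨Ω, hΩ, hP, hb⟩ := h1 ⟨hσ, hσ0⟩ L hQ
    have hm : Measurable fun (V : (Fin d → ZMod L) → ℝ) (x : Fin d → ZMod L) => -V x := by
      fun_prop
    refine ⟨(fun V x => -V x) ⁻¹' Ω, hm hΩ, ?_, fun V hV => hneg L σ V (hb _ hV)⟩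
    have h1 : (Measure.pi fun _ : Fin d → ZMod L => gaussianReal 0 1).real
        ((fun V x => -V x) ⁻¹' Ω) =
        (Measure.pi fun _ : Fin d → ZMod L => gaussianReal 0 1).real Ω := by
      have h2 := Pool.Agent.T2h98.QD.W.gp_neg (Fin d → ZMod L)
      have h3 : (Measure.pi fun _ : Fin d → ZMod L => gaussianReal 0 1).map
          (fun V x => -V x) = Measure.pi fun _ : Fin d → ZMod L => gaussianReal 0 1 := h2
      conv_rhs => rw [← h3]
      rw [map_measureReal_apply hm hΩ]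
    rw [h1]
    exact hP
  · rw [abs_of_pos hs] at hσ0 hQ
    exact h1 ⟨hs, hσ0⟩ L hQ

open Pool.Agent.T2h98.QD Pool.Agent.T2h98.PS in
theorem main (hA : T_PA) (hB : T_PB) (hL : T_PLM) (hdn : ∀ d : ℕ, 3 ≤ d → ∀ E, 0 ≤ dn d E)
    (d : ℕ) (hd : 3 ≤ d) (m : Fin d → ℤ) (a b : ℝ) (ha : 0 < a)
    (hb : b < (if d = 3 then 1 / 5 else 2 / 5)) (f : (Fin d → UnitAddCircle) → ℂ)
    (hf : Continuous f) (η : ℝ) (hη : 0 < η) :
    ∃ σ₀ : ℝ, 0 < σ₀ ∧ ∀ σ : ℝ, 0 < |σ| → |σ| ≤ σ₀ → ∀ (L : ℕ) [NeZero L],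
      |σ| ^ (-2 - a) ≤ (L : ℝ) → (L : ℝ) ≤ |σ| ^ (-2 - b) →
      ∃ Ω : Set ((Fin d → ZMod L) → ℝ), MeasurableSet Ω ∧
        1 - η ≤ (Measure.pi fun _ : Fin d → ZMod L => gaussianReal 0 1).real Ω ∧
        ∀ V ∈ Ω, ∀ (u : (Fin d → ZMod L) → (Fin d → ZMod L) → ℂ) (E : (Fin d → ZMod L) → ℝ),
        IsEigenbasis σ V u E →
        ({j | η < ‖element (fun x => f (point x)) m (u j) -
          micro d m (E j) * mean f‖}.ncard : ℝ) ≤ η * (L : ℝ) ^ d := by
  obtain ⟨σ₁, h1, h2⟩ := neg_reduce (d := d)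
    (P := fun L _ σ V => ∀ (u : (Fin d → ZMod L) → (Fin d → ZMod L) → ℂ)
      (E : (Fin d → ZMod L) → ℝ), IsEigenbasis σ V u E →
      ({j | η < ‖element (fun x => f (point x)) m (u j) -
        micro d m (E j) * mean f‖}.ncard : ℝ) ≤ η * (L : ℝ) ^ d)
    (Q := fun s L => s ^ (-2 - a) ≤ (L : ℝ) ∧ (L : ℝ) ≤ s ^ (-2 - b)) (η := η) (by
      intro L _ σ V hP u E hu
      refine hP u E ⟨fun j x => ?_, hu.2⟩
      have h3 := hu.1 j x
      unfold HL at h3 ⊢
      rw [← h3, neg_mul_neg]) (by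
      have h3 := hA 3 d hd a ha m (η / 2) (by positivity)
      have h3' := hB d hd a b ha hb m f hf (η / 2) (by positivity)
      have h4 : ∀ᶠ σ : ℝ in 𝓝[>] 0, σ < 1 := by
        filter_upwards [Ioo_mem_nhdsGT (zero_lt_one (α := ℝ))] with σ hσ
        exact hσ.2
      filter_upwards [h3, h3', h4, self_mem_nhdsWithin] with σ hσ hσ' hσ1 hσ0 L _ hQ
      have hσ0' : (0 : ℝ) < σ := hσ0
      have hb1 : b < 1 := by
        split_ifs at hb <;> linarith
      obtain ⟨Ω, k1, k2, k3⟩ := hσ L hQ.1 (hQ.2.trans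
        (Real.rpow_le_rpow_of_exponent_ge hσ0' hσ1.le (by push_cast; linarith)))
      obtain ⟨Ω', k1', k2', k3'⟩ := hσ' L hQ.1 hQ.2
      refine ⟨Ω ∩ Ω', k1.inter k1', ?_, fun V hV u E hu => ?_⟩
      · have hprob : IsProbabilityMeasure (Measure.pi fun _ : Fin d → ZMod L =>
            gaussianReal 0 1) := inferInstance
        have e1 : 1 - η / 2 ≤ (Measure.pi fun _ : Fin d → ZMod L => gaussianReal 0 1).real Ω := k2
        have e2 : 1 - η / 2 ≤ (Measure.pi fun _ : Fin d → ZMod L => gaussianReal 0 1).real Ω' :=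
          k2'
        have e3 : (Measure.pi fun _ : Fin d → ZMod L => gaussianReal 0 1).real (Ω ∩ Ω')ᶜ ≤
            (Measure.pi fun _ : Fin d → ZMod L => gaussianReal 0 1).real Ωᶜ +
            (Measure.pi fun _ : Fin d → ZMod L => gaussianReal 0 1).real Ω'ᶜ := by
          rw [Set.compl_inter]
          exact measureReal_union_le _ _
        rw [probReal_compl_eq_one_sub (k1.inter k1'), probReal_compl_eq_one_sub k1,
          probReal_compl_eq_one_sub k1'] at e3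
        linarith
      obtain ⟨k4, -⟩ := k3 V hV.1 u E (eb hu)
      have k6 := k3' V hV.2 u E (eb hu)
      have hN : Pool.Agent.W788.MFP.Four.NN d L = (L : ℝ) ^ d := rfl
      rw [hN] at k4 k6
      have hsub : {j | η < ‖element (fun x => f (point x)) m (u j) -
          micro d m (E j) * mean f‖} ⊆
          {j | dn d (E j) = 0} ∪ {j | η / 2 < ‖∑ x, f (QE.pt x) * (star (u j x) *
            u j (x + fun i => ((m i : ℤ) : ZMod L))) -
            ((wm d m (E j) / dn d (E j) : ℝ) : ℂ) *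
          ∫ x in Set.Icc (0 : Fin d → ℝ) 1, f (fun i => (x i : UnitAddCircle))‖} := by
        intro j hj
        by_cases h0 : dn d (E j) = 0
        · exact Or.inl h0
        · right
          have h5 : 0 < dn d (E j) := lt_of_le_of_ne (hdn d hd _) (Ne.symm h0)
          have h6 : η < ‖element (fun x => f (point x)) m (u j) -
            micro d m (E j) * mean f‖ := hj
          rw [(micro_eq hL d hd m (E j) h5).2] at h6
          show η / 2 < ‖element (fun x => f (point x)) m (u j) -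
            ((wm d m (E j) / dn d (E j) : ℝ) : ℂ) * mean f‖
          linarith
      have h7 := (Set.ncard_le_ncard hsub (Set.toFinite _)).trans (Set.ncard_union_le _ _)
      have h8 : ({j | η < ‖element (fun x => f (point x)) m (u j) -
          micro d m (E j) * mean f‖}.ncard : ℝ) ≤
          ({j | dn d (E j) = 0}.ncard : ℝ) + ({j | η / 2 < ‖∑ x, f (QE.pt x) * (star (u j x) *
            u j (x + fun i => ((m i : ℤ) : ZMod L))) -
            ((wm d m (E j) / dn d (E j) : ℝ) : ℂ) *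
          ∫ x in Set.Icc (0 : Fin d → ℝ) 1, f (fun i => (x i : UnitAddCircle))‖}.ncard : ℝ) := by
        exact_mod_cast h7
      linarith)
  exact ⟨σ₁, h1, fun σ hσ hσ0 L _ k1 k2 => h2 σ hσ hσ0 L ⟨k1, k2⟩⟩

open Pool.Agent.T2h98.QD Pool.Agent.T2h98.PS in
theorem main_fin (hA : T_PA) (hB : T_PB) (hL : T_PLM) (hdn : ∀ d : ℕ, 3 ≤ d → ∀ E, 0 ≤ dn d E)
    (d : ℕ) (hd : 3 ≤ d) (a b : ℝ) (ha : 0 < a)
    (hb : b < (if d = 3 then 1 / 5 else 2 / 5)) (N : ℕ) (m : Fin N → Fin d → ℤ)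
    (f : Fin N → (Fin d → UnitAddCircle) → ℂ) (hf : ∀ i, Continuous (f i)) (η : ℝ) (hη : 0 < η) :
    ∃ σ₀ : ℝ, 0 < σ₀ ∧ ∀ σ : ℝ, 0 < |σ| → |σ| ≤ σ₀ → ∀ (L : ℕ) [NeZero L],
      |σ| ^ (-2 - a) ≤ (L : ℝ) → (L : ℝ) ≤ |σ| ^ (-2 - b) →
      ∃ Ω : Set ((Fin d → ZMod L) → ℝ), MeasurableSet Ω ∧
        1 - η ≤ (Measure.pi fun _ : Fin d → ZMod L => gaussianReal 0 1).real Ω ∧
        ∀ V ∈ Ω, ∀ (u : (Fin d → ZMod L) → (Fin d → ZMod L) → ℂ) (E : (Fin d → ZMod L) → ℝ),
        IsEigenbasis σ V u E →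
        ({j | ∃ i, η < ‖element (fun x => f i (point x)) (m i) (u j) -
          micro d (m i) (E j) * mean (f i)‖}.ncard : ℝ) ≤ η * (L : ℝ) ^ d := by
  obtain ⟨η', hη'⟩ : ∃ η' : ℝ, η' = η / ((N : ℝ) + 1) := ⟨_, rfl⟩
  have hN0 : (0 : ℝ) ≤ N := Nat.cast_nonneg _
  have hη0 : 0 < η' := by rw [hη']; positivity
  have hη1 : η' ≤ η := by
    rw [hη']
    refine div_le_self hη.le ?_
    linarith
  have hη2 : (N : ℝ) * η' ≤ η := by
    rw [hη', mul_div_assoc', div_le_iff₀ (by positivity)]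
    nlinarith
  choose σ₀ hσ₀ h using fun i : Fin N => main hA hB hL hdn d hd (m i) a b ha hb (f i) (hf i) η' hη0
  have hs0 : 0 ≤ ∑ i, (σ₀ i)⁻¹ := Finset.sum_nonneg fun i _ => (inv_pos.2 (hσ₀ i)).le
  have hs1 : ∀ i, (1 + ∑ i, (σ₀ i)⁻¹)⁻¹ ≤ σ₀ i := by
    intro i
    have h1 := Finset.single_le_sum (f := fun i => (σ₀ i)⁻¹) (fun i _ => (inv_pos.2 (hσ₀ i)).le)
      (Finset.mem_univ i)
    rw [inv_le_comm₀ (by linarith) (hσ₀ i)]
    linarith
  refine ⟨(1 + ∑ i, (σ₀ i)⁻¹)⁻¹, inv_pos.2 (by linarith), fun σ hσ hσ1 L _ hL1 hL2 => ?_⟩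
  choose Ω hΩ hP hV using fun i : Fin N => h i σ hσ (hσ1.trans (hs1 i)) L hL1 hL2
  refine ⟨⋂ i, Ω i, MeasurableSet.iInter hΩ, ?_, fun V hV1 u E hu => ?_⟩
  · have hsum : (Measure.pi fun _ : Fin d → ZMod L => gaussianReal 0 1).real (⋂ i, Ω i)ᶜ ≤
        ∑ i, (Measure.pi fun _ : Fin d → ZMod L => gaussianReal 0 1).real (Ω i)ᶜ := by
      rw [Set.compl_iInter]
      exact measureReal_iUnion_fintype_le _
    have hsum2 : ∑ i, (Measure.pi fun _ : Fin d → ZMod L => gaussianReal 0 1).real (Ω i)ᶜ ≤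
        N * η' := by
      have h3 : ∀ i ∈ (Finset.univ : Finset (Fin N)),
          (Measure.pi fun _ : Fin d → ZMod L => gaussianReal 0 1).real (Ω i)ᶜ ≤ η' := by
        intro i _
        rw [probReal_compl_eq_one_sub (hΩ i)]
        linarith [hP i]
      refine (Finset.sum_le_sum h3).trans (le_of_eq ?_)
      rw [Finset.sum_const, Finset.card_univ, Fintype.card_fin, nsmul_eq_mul]
    rw [probReal_compl_eq_one_sub (MeasurableSet.iInter hΩ)] at hsum
    linarith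
  · have hsub : {j | ∃ i, η < ‖element (fun x => f i (point x)) (m i) (u j) -
          micro d (m i) (E j) * mean (f i)‖} ⊆
        ⋃ i ∈ (Finset.univ : Finset (Fin N)),
          {j | η' < ‖element (fun x => f i (point x)) (m i) (u j) -
            micro d (m i) (E j) * mean (f i)‖} := by
      rintro j ⟨i, hi⟩
      simp only [Finset.mem_univ, Set.iUnion_true, Set.mem_iUnion]
      exact ⟨i, lt_of_le_of_lt hη1 hi⟩
    have h4 : {j | ∃ i, η < ‖element (fun x => f i (point x)) (m i) (u j) -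
          micro d (m i) (E j) * mean (f i)‖}.ncard ≤
        ∑ i, {j | η' < ‖element (fun x => f i (point x)) (m i) (u j) -
            micro d (m i) (E j) * mean (f i)‖}.ncard :=
      (Set.ncard_le_ncard hsub (Set.toFinite _)).trans (Finset.set_ncard_biUnion_le _ _)
    have h5 : ({j | ∃ i, η < ‖element (fun x => f i (point x)) (m i) (u j) -
          micro d (m i) (E j) * mean (f i)‖}.ncard : ℝ) ≤
        ∑ i, ({j | η' < ‖element (fun x => f i (point x)) (m i) (u j) -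
            micro d (m i) (E j) * mean (f i)‖}.ncard : ℝ) := by
      exact_mod_cast h4
    have h6 : ∑ i, ({j | η' < ‖element (fun x => f i (point x)) (m i) (u j) -
            micro d (m i) (E j) * mean (f i)‖}.ncard : ℝ) ≤ ∑ _i : Fin N, η' * (L : ℝ) ^ d :=
      Finset.sum_le_sum fun i _ => hV i V (Set.mem_iInter.1 hV1 i) u E hu
    rw [Finset.sum_const, Finset.card_univ, Fintype.card_fin, nsmul_eq_mul] at h6
    have h7 : (0 : ℝ) ≤ (L : ℝ) ^ d := by positivity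
    calc _ ≤ _ := h5
      _ ≤ _ := h6
      _ = (N * η') * (L : ℝ) ^ d := by ring
      _ ≤ _ := mul_le_mul_of_nonneg_right hη2 h7

/-- **Theorem.** Let `d ≥ 3`. The microcanonical mean `micro d m E` of `exp(i m·p)` is a limit for all
`m ∈ ℤ^d` and `|E| < 2d`. Let `0 < a`, and `b < 1/5` if `d = 3`, `b < 2/5` if `d ≥ 4`. For all
`m_1, …, m_N ∈ ℤ^d`, all continuous `f_1, …, f_N` on the unit torus and every `η > 0` there is
`σ₀ > 0` such that for all real `σ` with `0 < |σ| ≤ σ₀` and all `L` with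
`|σ|^{-2-a} ≤ L ≤ |σ|^{-2-b}` there is an event of probability at least `1 - η` on which, for every
orthonormal basis `u_j` of eigenvectors of the Hamiltonian on `(ℤ/L)^d` with eigenvalues `E_j`,
`|∑_x f_i(x/L) conj(u_j(x)) u_j(x+m_i) - micro d m_i E_j ∫ f_i| ≤ η` for all `i`, for all but at most
`η L^d` of the `j`. -/
theorem result (d : ℕ) (hd : 3 ≤ d) :
    (∀ (m : Fin d → ℤ) (E : ℝ), |E| < 2 * (d : ℝ) →
      Tendsto (shellMean d m E) (𝓝[>] 0) (𝓝 (micro d m E))) ∧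
    ∀ a b : ℝ, 0 < a → b < (if d = 3 then 1 / 5 else 2 / 5) →
    ∀ (N : ℕ) (m : Fin N → Fin d → ℤ) (f : Fin N → (Fin d → UnitAddCircle) → ℂ),
    (∀ i, Continuous (f i)) → ∀ η : ℝ, 0 < η →
    ∃ σ₀ : ℝ, 0 < σ₀ ∧ ∀ σ : ℝ, 0 < |σ| → |σ| ≤ σ₀ → ∀ (L : ℕ) [NeZero L],
      |σ| ^ (-2 - a) ≤ (L : ℝ) → (L : ℝ) ≤ |σ| ^ (-2 - b) →
      ∃ Ω : Set ((Fin d → ZMod L) → ℝ), MeasurableSet Ω ∧
        1 - η ≤ (Measure.pi fun _ : Fin d → ZMod L => gaussianReal 0 1).real Ω ∧
        ∀ V ∈ Ω, ∀ (u : (Fin d → ZMod L) → (Fin d → ZMod L) → ℂ) (E : (Fin d → ZMod L) → ℝ),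
        IsEigenbasis σ V u E →
        ({j | ∃ i, η < ‖element (fun x => f i (point x)) (m i) (u j) -
          micro d (m i) (E j) * mean (f i)‖}.ncard : ℝ) ≤ η * (L : ℝ) ^ d := by
  have hD := Pool.Agent.T2h98.QD.U.dosF
  have hL := Pool.Agent.T2h98.PS.All.plmA
  refine ⟨fun m E hE => (micro_eq hL d hd m E (Pool.Agent.T2h98.PS.pps hD d hd E hE)).1,
    fun a b ha hb N m f hf η hη => ?_⟩
  exact main_fin Pool.Agent.T2h98.PS.All.paA Pool.Agent.T2h98.PS.All.pbA hL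
    (fun d hd => (hD d hd).2.2.1) d hd a b ha hb N m f hf η hη

end Pool.Agent.Results.MP_1906c1_mp.PhaseSpaceErgodicity
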